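import Pool.Agent.Q252.LR.B

/-!
# Linnik's theorem along `⌊α P(n)⌋`

Let `q ≥ 2`. There are `K` and `c > 0` and a set `E` of real numbers of Hausdorff dimension at most
`q / (q + 1 / (q 2 ^ (q - 1)))` (that is `8 / 9` for `q = 2`) such that for every `α > 0` outside `E` there is
`η > 0` with the following property. For all large `z` there is ONE exceptional modulus `q₁`, larger than any fixed
power of `log z`, such that for ALL moduli `d ≤ z ^ η` which are not divisible by `q₁`, ALL residue classes `a`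
prime to `d` and ALL integral polynomials `P` of degree `q` with positive leading coefficient and coefficients of
absolute value at most `z ^ η`, the sum of `1 / n` over the `n` with `z < n ≤ z ^ K` for which the integer part of
`α P(n)` is a prime number congruent to `a` modulo `d` is at least `c / φ(d)`. In particular the least such prime is
at most a fixed power of `z`.
-/

set_option autoImplicit false

open Finset Filter Topology MeasureTheory

namespace Pool.Agent.Results.MP_42948a_nt.LinnikRealMultiples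

open Classical in
/-- the `n` with `z < n ≤ z ^ K` for which the integer part of `α P(n)` is a prime number `p ≡ a (mod d)` -/
noncomputable def args (α : ℝ) (P : Polynomial ℤ) (d a z K : ℕ) : Finset ℕ :=
  (Ioc z (z ^ K)).filter fun n : ℕ => (⌊α * ((P.eval (n : ℤ) : ℤ) : ℝ)⌋₊).Prime ∧
    ⌊α * ((P.eval (n : ℤ) : ℤ) : ℝ)⌋₊ ≡ a [MOD d]

/-- **A theorem of Linnik's type for the primes `⌊α P(n)⌋`, all `α` outside a set of dimension less than one,
uniformly in the polynomial, with one exceptional modulus.** -/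
theorem result (q : ℕ) (hq : 2 ≤ q) : ∃ (K : ℕ) (c : ℝ), 0 < c ∧ ∃ E : Set ℝ,
    dimH E ≤ ENNReal.ofReal ((q : ℝ) / (q + 1 / (q * 2 ^ (q - 1)))) ∧ ∀ α : ℝ, 0 < α → α ∉ E →
    ∃ η : ℝ, 0 < η ∧ ∀ B : ℕ, ∀ᶠ z : ℕ in atTop, ∃ q₁ : ℕ, (Real.log z) ^ B < (q₁ : ℝ) ∧
      ∀ d a : ℕ, 0 < d → (d : ℝ) ≤ (z : ℝ) ^ η → ¬ q₁ ∣ d → a.Coprime d →
      ∀ P : Polynomial ℤ, P.natDegree = q → 0 < P.leadingCoeff → (∀ j, |((P.coeff j : ℤ) : ℝ)| ≤ (z : ℝ) ^ η) →
        c / (d.totient : ℝ) ≤ ∑ n ∈ args α P d a z K, (1 : ℝ) / n := by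
  obtain ⟨K, c, hc, E, hE, h⟩ := Pool.Agent.Q252.LR.main q hq
  refine ⟨K, c, hc, E, hE, fun α hα hαE => ?_⟩
  obtain ⟨η, hη, hev⟩ := h α hα hαE
  refine ⟨η, hη, fun B => ?_⟩
  filter_upwards [hev B] with z hz
  obtain ⟨q₁, hq₁, h1⟩ := hz
  refine ⟨q₁, hq₁, fun d a hd hdz hnd had P hdeg hlead hco => ?_⟩
  have h2 := h1 d a hd hdz hnd had P hdeg hlead hco
  have h4 : ∀ n : ℕ, (P.map (Int.castRingHom ℝ)).eval (n : ℝ) = ((P.eval (n : ℤ) : ℤ) : ℝ) := by
    intro n
    have := Polynomial.eval_intCast_map (Int.castRingHom ℝ) P (n : ℤ)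
    push_cast at this
    exact this
  simp only [h4] at h2
  refine h2.trans (le_of_eq ?_)
  unfold args
  refine sum_congr ?_ fun _ _ => rfl
  ext n
  simp only [mem_filter]

end Pool.Agent.Results.MP_42948a_nt.LinnikRealMultiples
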