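import Pool.Agent.Q253.Cov.LinW
import Pool.Agent.Q253.Cov.Pig

/-!
# Almost primes below `d ^ β` in every residue class modulo every `d`: narrow progressions

Chowla's conjecture asks for a prime below `d ^ (1 + ε)` in every reduced class modulo every large `d`.  We prove: for `r ≥ 2` and
`β > (24 r - 3) / (24 r - 28)` (so `β → 1` as `r → ∞`) every reduced class modulo EVERY large `d` contains at least `c d ^ (β-1) / log d`
numbers `n ≤ d ^ β` with at most `r` prime factors, all at least `d ^ ((β-1)/6)`; every subset of positive relative density of these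
numbers contains arithmetic progressions of any length with difference `d e`, `e ≤ log ^ D d`, and there are such progressions of one
colour on which the number of the prime factors is constant.

Libraries (starting files): weighted sieve `Y882.KW.core4`, Mertens `W378.DC.MP`, Szemerédi's theorem relative to sifted sets
`Y843.HS.fin`.
-/

set_option autoImplicit false

namespace Pool.Agent.Results.MP_42948a_nt.NarrowProgressions

open Finset Filter
open Pool.Agent.Q253.Cov (GLn lin_count ap_dense pigeon Zl_sys)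
open Pool.Agent.Q253.P3 (Zl mem_Zl)
open Pool.Agent.Q253.Thin (VZ_low)
open Pool.Agent.Y843.HS (VV)

open Classical in
/-- the `j ≥ 1` such that `n = j d + a ≤ d ^ β` has at most `r` prime factors (with multiplicity), all of them `≥ d ^ ((β-1)/6)` -/
noncomputable def J (r : ℕ) (β : ℝ) (d a : ℕ) : Finset ℕ :=
  (Icc 1 ⌊(d : ℝ) ^ β⌋₊).filter (fun j => ((j * d + a : ℕ) : ℝ) ≤ (d : ℝ) ^ β ∧ (j * d + a).primeFactorsList.length ≤ r ∧
    ∀ q : ℕ, q.Prime → q ∣ j * d + a → (d : ℝ) ^ ((β - 1) / 6) ≤ q)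

/-- the parameters -/
theorem par (r : ℕ) (hr : 2 ≤ r) (β : ℝ) (hβ : (24 * r - 3 : ℝ) / (24 * r - 28) < β) :
    1 < β ∧ ∃ h : ℝ, 0 < h ∧ h ≤ 1 ∧ 25 < 3 * (8 * (r : ℝ) - 1) * h ∧ β * h < β - 1 ∧ 9 / 10 * (β - 1) ≤ β * h := by
  have hr2 : (2 : ℝ) ≤ r := by exact_mod_cast hr
  have h1 : (0 : ℝ) < 24 * r - 28 := by linarith
  have h2 : (0 : ℝ) < 3 * (8 * (r : ℝ) - 1) := by linarith
  rw [div_lt_iff₀ h1] at hβ
  have hβ1 : 1 < β := by
    by_contra hcon
    push Not at hcon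
    nlinarith
  have hβ0 : 0 < β := by linarith
  obtain ⟨u, hu⟩ : ∃ u : ℝ, u = 1 - 1 / β := ⟨_, rfl⟩
  have hβu : β * u = β - 1 := by
    rw [hu]
    field_simp
  have hu0 : 0 < u := by
    by_contra hcon
    push Not at hcon
    nlinarith
  have hu1 : u < 1 := by
    rw [hu]
    have : 0 < 1 / β := by positivity
    linarith
  have hu2 : 25 / (3 * (8 * (r : ℝ) - 1)) < u := by
    rw [div_lt_iff₀ h2]
    by_contra hcon
    push Not at hcon
    have h3 : β * (u * (3 * (8 * (r : ℝ) - 1))) ≤ β * 25 := mul_le_mul_of_nonneg_left hcon hβ0.le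
    have h4 : β * (u * (3 * (8 * (r : ℝ) - 1))) = (β - 1) * (3 * (8 * (r : ℝ) - 1)) := by
      rw [← hβu]
      ring
    rw [h4] at h3
    nlinarith
  refine ⟨hβ1, max ((u + 25 / (3 * (8 * (r : ℝ) - 1))) / 2) (9 / 10 * u), ?_, ?_, ?_, ?_, ?_⟩
  · exact lt_of_lt_of_le (by positivity) (le_max_right _ _)
  · apply max_le <;> linarith
  · have h3 := le_max_left ((u + 25 / (3 * (8 * (r : ℝ) - 1))) / 2) (9 / 10 * u)
    have h4 : 25 / (3 * (8 * (r : ℝ) - 1)) < (u + 25 / (3 * (8 * (r : ℝ) - 1))) / 2 := by linarith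
    have h5 := lt_of_lt_of_le h4 h3
    rw [div_lt_iff₀ h2] at h5
    linarith
  · rw [← hβu]
    apply mul_lt_mul_of_pos_left _ hβ0
    apply max_lt <;> linarith
  · rw [← hβu]
    calc 9 / 10 * (β * u) = β * (9 / 10 * u) := by ring
      _ ≤ _ := mul_le_mul_of_nonneg_left (le_max_right _ _) hβ0.le

/-- the core: the number of the elements, relative to the sieve product, and the interval of the `j` -/
theorem core (r : ℕ) (hr : 2 ≤ r) (β : ℝ) (hβ : (24 * r - 3 : ℝ) / (24 * r - 28) < β) : ∃ δ : ℝ, 0 < δ ∧ ∃ d₀ : ℕ, ∀ d : ℕ, d₀ ≤ d →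
    ∀ a : ℕ, 1 ≤ a → a ≤ d → Nat.Coprime a d → ∃ H : ℕ, (d : ℝ) ^ (β - 1) / 2 ≤ H ∧ (H : ℝ) ≤ (d : ℝ) ^ (β - 1) ∧
      (∀ j ∈ J r β d a, j ∈ Ioc 0 (0 + H) ∧ 2 ≤ j * d + a) ∧ δ * (H * VV (Zl d a) 0 H) ≤ ((J r β d a).card : ℝ) := by
  classical
  obtain ⟨hβ1, h, hh0, hh1, h25, hβh, hβ9⟩ := par r hr β hβ
  obtain ⟨δ, hδ, X₀, H1⟩ := lin_count r h hh1 (by omega) h25
  have hb : 0 < β - 1 := by linarith
  have ev1 : ∀ᶠ d : ℕ in atTop, (X₀ : ℝ) + 1 ≤ (d : ℝ) ^ β :=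
    ((tendsto_rpow_atTop (by linarith)).comp tendsto_natCast_atTop_atTop).eventually_ge_atTop _
  have ev2 : ∀ᶠ d : ℕ in atTop, (6 : ℝ) ≤ (d : ℝ) ^ (β - 1) :=
    ((tendsto_rpow_atTop hb).comp tendsto_natCast_atTop_atTop).eventually_ge_atTop _
  have ev3 : ∀ᶠ d : ℕ in atTop, (2 : ℝ) ≤ (d : ℝ) ^ (β - 1 - β * h) :=
    ((tendsto_rpow_atTop (by linarith)).comp tendsto_natCast_atTop_atTop).eventually_ge_atTop _
  have ev4 : ∀ᶠ d : ℕ in atTop, (2 : ℝ) ≤ (d : ℝ) ^ ((β - 1) / 75) :=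
    ((tendsto_rpow_atTop (by positivity)).comp tendsto_natCast_atTop_atTop).eventually_ge_atTop _
  obtain ⟨d₀, hd₀⟩ := eventually_atTop.1 (ev1.and (ev2.and (ev3.and (ev4.and (eventually_ge_atTop 2)))))
  refine ⟨δ, hδ, d₀, ?_⟩
  intro d hd a ha1 had hcop
  obtain ⟨e1, e2, e3, e4, e5⟩ := hd₀ d hd
  have hdr : (2 : ℝ) ≤ d := by exact_mod_cast e5
  have hd0 : (0 : ℝ) < d := by linarith
  have hd1 : (1 : ℝ) ≤ d := by linarith
  obtain ⟨X, hX⟩ : ∃ X, X = ⌊(d : ℝ) ^ β⌋₊ := ⟨_, rfl⟩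
  have hXle : (X : ℝ) ≤ (d : ℝ) ^ β := by rw [hX]; exact Nat.floor_le (by positivity)
  have hXlt : (d : ℝ) ^ β < X + 1 := by rw [hX]; exact Nat.lt_floor_add_one _
  have hdβ : (d : ℝ) ^ β = d * (d : ℝ) ^ (β - 1) := by
    nth_rewrite 2 [← Real.rpow_one (d : ℝ)]
    rw [← Real.rpow_add hd0]
    congr 1
    ring
  obtain ⟨H, hH⟩ : ∃ H, H = (X - a) / d := ⟨_, rfl⟩
  have haX : a ≤ X := by
    have h1 : (a : ℝ) ≤ d := by exact_mod_cast had
    have h2 : (a : ℝ) ≤ X := by nlinarith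
    exact_mod_cast h2
  have hdpos : 0 < d := by omega
  have hH1 : d * H + a ≤ X := by
    have := Nat.mul_div_le (X - a) d
    rw [← hH] at this
    omega
  have hH2 : X < d * (H + 1) + a := by
    have := Nat.lt_mul_div_succ (X - a) hdpos
    rw [← hH] at this
    omega
  have hH3 : (H : ℝ) ≤ (d : ℝ) ^ (β - 1) := by
    have h1 : (d : ℝ) * H ≤ d * (d : ℝ) ^ (β - 1) := by
      rw [← hdβ]
      refine le_trans ?_ hXle
      exact_mod_cast (by omega : d * H ≤ X)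
    exact le_of_mul_le_mul_left h1 hd0
  have hH4 : (d : ℝ) ^ (β - 1) - 3 ≤ H := by
    have h1 : ((X : ℕ) : ℝ) + 1 ≤ d * (H + 1) + a := by exact_mod_cast hH2
    have h2 : (a : ℝ) ≤ d := by exact_mod_cast had
    have h3 : (d : ℝ) * (d : ℝ) ^ (β - 1) ≤ d * (H + 2) := by
      rw [← hdβ]
      linarith
    have := le_of_mul_le_mul_left h3 hd0
    linarith
  have hH5 : (d : ℝ) ^ (β - 1) / 2 ≤ H := by linarith
  have hXX : X₀ ≤ X := by
    have : (X₀ : ℝ) ≤ X := by linarith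
    exact_mod_cast this
  have hXh : (X : ℝ) ^ h ≤ H := by
    refine le_trans ?_ hH5
    calc (X : ℝ) ^ h ≤ ((d : ℝ) ^ β) ^ h := Real.rpow_le_rpow (Nat.cast_nonneg _) hXle hh0.le
      _ = (d : ℝ) ^ (β * h) := by rw [← Real.rpow_mul hd0.le]
      _ ≤ (d : ℝ) ^ (β - 1) / 2 := by
          rw [le_div_iff₀ (by norm_num)]
          calc (d : ℝ) ^ (β * h) * 2 ≤ (d : ℝ) ^ (β * h) * (d : ℝ) ^ (β - 1 - β * h) :=
                mul_le_mul_of_nonneg_left e3 (by positivity)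
            _ = _ := by
                rw [← Real.rpow_add hd0]
                congr 1
                ring
  have hcount := H1 X hXX d a 0 H (by omega) hcop (by rw [Nat.zero_add]; exact hH1) hXh
  have hz : (d : ℝ) ^ ((β - 1) / 6) ≤ (X : ℝ) ^ (h / 5) := by
    have h1 : (d : ℝ) ^ β / 2 ≤ X := by
      have : (2 : ℝ) ≤ (d : ℝ) ^ β := by
        rw [hdβ]
        nlinarith
      linarith
    have h2 : (d : ℝ) ^ ((β - 1) / 6) * 2 ≤ (d : ℝ) ^ (β * (h / 5)) := by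
      calc (d : ℝ) ^ ((β - 1) / 6) * 2 ≤ (d : ℝ) ^ ((β - 1) / 6) * (d : ℝ) ^ ((β - 1) / 75) :=
            mul_le_mul_of_nonneg_left e4 (by positivity)
        _ = (d : ℝ) ^ ((β - 1) / 6 + (β - 1) / 75) := by rw [← Real.rpow_add hd0]
        _ ≤ _ := Real.rpow_le_rpow_of_exponent_le hd1 (by linarith)
    calc (d : ℝ) ^ ((β - 1) / 6) ≤ (d : ℝ) ^ (β * (h / 5)) / 2 := by linarith
      _ = ((d : ℝ) ^ β) ^ (h / 5) / 2 := by rw [Real.rpow_mul hd0.le]
      _ ≤ ((d : ℝ) ^ β) ^ (h / 5) / 2 ^ (h / 5) := by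
          apply div_le_div_of_nonneg_left (by positivity) (by positivity)
          calc (2 : ℝ) ^ (h / 5) ≤ 2 ^ (1 : ℝ) := Real.rpow_le_rpow_of_exponent_le (by norm_num) (by linarith)
            _ = 2 := Real.rpow_one _
      _ = ((d : ℝ) ^ β / 2) ^ (h / 5) := by rw [Real.div_rpow (by positivity) (by norm_num)]
      _ ≤ _ := Real.rpow_le_rpow (by positivity) h1 (by positivity)
  refine ⟨H, hH5, hH3, ?_, ?_⟩
  · intro j hj
    unfold J at hj
    rw [mem_filter, mem_Icc] at hj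
    obtain ⟨⟨hj1, _⟩, hj2, _⟩ := hj
    have h1 : j * d + a ≤ X := by rw [hX]; exact Nat.le_floor hj2
    rw [mem_Ioc]
    refine ⟨⟨by omega, ?_⟩, ?_⟩
    · rw [Nat.zero_add]
      by_contra hcon
      push Not at hcon
      have h2 : d * (H + 1) ≤ j * d := by
        rw [mul_comm d]
        exact Nat.mul_le_mul_right d hcon
      omega
    · have : 1 * 2 ≤ j * d := Nat.mul_le_mul hj1 e5
      omega
  · refine hcount.trans ?_
    apply Nat.cast_le.2
    apply card_le_card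
    intro j hj
    unfold GLn at hj
    rw [mem_filter, mem_Ioc, Nat.zero_add] at hj
    obtain ⟨⟨j1, j2⟩, j3, j4, j5⟩ := hj
    have h1 : j * d + a ≤ X := by
      have : d * j ≤ d * H := Nat.mul_le_mul_left d j2
      rw [mul_comm j d]
      omega
    unfold J
    rw [mem_filter, mem_Icc]
    rw [mul_comm d j] at j3 j4
    refine ⟨⟨by omega, ?_⟩, ?_, j4, fun q hq hqd => ?_⟩
    · rw [← hX]
      have : j * 1 ≤ j * d := Nat.mul_le_mul_left j (by omega)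
      omega
    · refine le_trans ?_ hXle
      exact_mod_cast h1
    · refine hz.trans (j5 q hq ?_)
      rw [mul_comm d j]
      exact hqd

/-- progressions -/
theorem dense (r : ℕ) (hr : 2 ≤ r) (β : ℝ) (hβ : (24 * r - 3 : ℝ) / (24 * r - 28) < β) (L : ℕ) (ε : ℝ) (hε : 0 < ε) :
    ∃ D d₀ : ℕ, ∀ d : ℕ, d₀ ≤ d → ∀ a : ℕ, 1 ≤ a → a ≤ d → Nat.Coprime a d → ∀ S ⊆ J r β d a,
      ε * ((J r β d a).card : ℝ) ≤ S.card →
      ∃ j e : ℕ, 1 ≤ e ∧ (e : ℝ) ≤ Real.log d ^ D ∧ ∀ i < L, j + i * e ∈ S := by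
  classical
  obtain ⟨δ, hδ, d₁, H1⟩ := core r hr β hβ
  obtain ⟨hβ1, -⟩ := par r hr β hβ
  have hb : 0 < β - 1 := by linarith
  obtain ⟨D, X₁, H2⟩ := ap_dense L 1 (1 / 7) (ε * δ) (by norm_num) (by norm_num) (by positivity)
  have ev1 : ∀ᶠ d : ℕ in atTop, 2 * (X₁ : ℝ) + 2 ≤ (d : ℝ) ^ (β - 1) :=
    ((tendsto_rpow_atTop hb).comp tendsto_natCast_atTop_atTop).eventually_ge_atTop _
  have ev2 : ∀ᶠ d : ℕ in atTop, β - 1 + 1 ≤ Real.log d :=
    (Real.tendsto_log_atTop.comp tendsto_natCast_atTop_atTop).eventually_ge_atTop _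
  obtain ⟨d₂, hd₂⟩ := eventually_atTop.1 (ev1.and (ev2.and (eventually_ge_atTop 2)))
  refine ⟨2 * D, max d₁ d₂, ?_⟩
  intro d hd a ha1 had hcop S hS hSc
  obtain ⟨e1, e2, e3⟩ := hd₂ d ((le_max_right _ _).trans hd)
  obtain ⟨H, g1, g2, g3, g4⟩ := H1 d ((le_max_left _ _).trans hd) a ha1 had hcop
  have hdr : (2 : ℝ) ≤ d := by exact_mod_cast e3
  have hd0 : (0 : ℝ) < d := by linarith
  have hHX : X₁ ≤ H := by
    have : (X₁ : ℝ) ≤ H := by linarith
    exact_mod_cast this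
  have hH1 : (1 : ℝ) ≤ H := by
    have : (0 : ℝ) ≤ X₁ := Nat.cast_nonneg _
    linarith
  have hpf : ∀ j ∈ S, ∀ q : ℕ, q.Prime → q ∣ j * d + a → (d : ℝ) ^ ((β - 1) / 6) ≤ q := by
    intro j hj
    have := hS hj
    unfold J at this
    rw [mem_filter] at this
    exact this.2.2.2
  obtain ⟨j, e, he1, he2, he3⟩ := H2 H hHX (Zl d a) (Zl_sys hcop) 0 S (fun j hj => (g3 j (hS hj)).1) (by
    intro j hj p hpp hpH hmem
    rw [mem_Zl hpp, mul_comm d j] at hmem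
    have h1 := hpf j hj p hpp hmem
    have h2 : (H : ℝ) ^ (1 / 7 : ℝ) ≤ ((d : ℝ) ^ (β - 1)) ^ (1 / 7 : ℝ) := Real.rpow_le_rpow (by linarith) g2 (by norm_num)
    rw [← Real.rpow_mul hd0.le] at h2
    have h3 : (d : ℝ) ^ ((β - 1) * (1 / 7)) < (d : ℝ) ^ ((β - 1) / 6) :=
      Real.rpow_lt_rpow_of_exponent_lt (by linarith) (by linarith)
    linarith) (by
    refine le_trans ?_ hSc
    calc ε * δ * (H * VV (Zl d a) 0 H) = ε * (δ * (H * VV (Zl d a) 0 H)) := by ring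
      _ ≤ _ := mul_le_mul_of_nonneg_left g4 hε.le)
  refine ⟨j, e, he1, he2.trans ?_, he3⟩
  have h1 : Real.log H ≤ (β - 1) * Real.log d := by
    have := Real.log_le_log (by linarith) g2
    rwa [Real.log_rpow hd0] at this
  have h0 : 0 ≤ Real.log H := Real.log_nonneg hH1
  have h2 : Real.log H ≤ Real.log d * Real.log d := by nlinarith
  calc Real.log H ^ D ≤ (Real.log d * Real.log d) ^ D := pow_le_pow_left₀ h0 h2 D
    _ = _ := by ring

/-- **Narrow progressions of almost primes in every residue class.** -/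
theorem result : ∀ r : ℕ, 2 ≤ r → ∀ β : ℝ, (24 * r - 3 : ℝ) / (24 * r - 28) < β →
    (∃ c : ℝ, 0 < c ∧ ∃ d₀ : ℕ, ∀ d : ℕ, d₀ ≤ d → ∀ a : ℕ, 1 ≤ a → a ≤ d → Nat.Coprime a d →
      c * ((d : ℝ) ^ (β - 1) / Real.log d) ≤ ((J r β d a).card : ℝ)) ∧
    (∀ L : ℕ, ∀ ε : ℝ, 0 < ε → ∃ D d₀ : ℕ, ∀ d : ℕ, d₀ ≤ d → ∀ a : ℕ, 1 ≤ a → a ≤ d → Nat.Coprime a d → ∀ S ⊆ J r β d a,
      ε * ((J r β d a).card : ℝ) ≤ S.card →
      ∃ j e : ℕ, 1 ≤ e ∧ (e : ℝ) ≤ Real.log d ^ D ∧ ∀ i < L, j + i * e ∈ S) ∧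
    (∀ L k : ℕ, 1 ≤ k → ∃ D d₀ : ℕ, ∀ d : ℕ, d₀ ≤ d → ∀ a : ℕ, 1 ≤ a → a ≤ d → Nat.Coprime a d → ∀ col : ℕ → Fin k,
      ∃ s : ℕ, 1 ≤ s ∧ s ≤ r ∧ ∃ b : Fin k, ∃ n e : ℕ, n ≡ a [MOD d] ∧ 1 ≤ e ∧ (e : ℝ) ≤ Real.log d ^ D ∧ ∀ i < L,
        ((n + i * (e * d) : ℕ) : ℝ) ≤ (d : ℝ) ^ β ∧ col (n + i * (e * d)) = b ∧
        (n + i * (e * d)).primeFactorsList.length = s ∧
        ∀ q : ℕ, q.Prime → q ∣ n + i * (e * d) → (d : ℝ) ^ ((β - 1) / 6) ≤ q) := by
  classical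
  intro r hr β hβ
  obtain ⟨hβ1, -⟩ := par r hr β hβ
  have hb : 0 < β - 1 := by linarith
  refine ⟨?_, fun L ε hε => dense r hr β hβ L ε hε, ?_⟩
  · obtain ⟨δ, hδ, d₁, H1⟩ := core r hr β hβ
    obtain ⟨cV, hcV, hlow⟩ := VZ_low 1 le_rfl
    have ev1 : ∀ᶠ d : ℕ in atTop, (4 : ℝ) ≤ (d : ℝ) ^ (β - 1) :=
      ((tendsto_rpow_atTop hb).comp tendsto_natCast_atTop_atTop).eventually_ge_atTop _
    obtain ⟨d₂, hd₂⟩ := eventually_atTop.1 (ev1.and (eventually_ge_atTop 2))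
    refine ⟨δ * (cV / (2 * (β - 1))), by positivity, max d₁ d₂, ?_⟩
    intro d hd a ha1 had hcop
    obtain ⟨e1, e3⟩ := hd₂ d ((le_max_right _ _).trans hd)
    obtain ⟨H, g1, g2, g3, g4⟩ := H1 d ((le_max_left _ _).trans hd) a ha1 had hcop
    have hdr : (2 : ℝ) ≤ d := by exact_mod_cast e3
    have hd0 : (0 : ℝ) < d := by linarith
    have hld : 0 < Real.log d := Real.log_pos (by linarith)
    have hH2r : (2 : ℝ) ≤ H := by linarith
    have hH2 : 2 ≤ H := by exact_mod_cast hH2r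
    have hlH : 0 < Real.log H := Real.log_pos (by linarith)
    have h1 : Real.log H ≤ (β - 1) * Real.log d := by
      have := Real.log_le_log (by linarith) g2
      rwa [Real.log_rpow hd0] at this
    have h2 := hlow H hH2 (Zl d a) (Zl_sys hcop)
    rw [pow_one] at h2
    have h3 : cV / ((β - 1) * Real.log d) ≤ VV (Zl d a) 0 H :=
      (div_le_div_of_nonneg_left hcV.le hlH h1).trans h2
    refine le_trans ?_ g4
    calc δ * (cV / (2 * (β - 1))) * ((d : ℝ) ^ (β - 1) / Real.log d) =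
          δ * ((d : ℝ) ^ (β - 1) / 2 * (cV / ((β - 1) * Real.log d))) := by field_simp
      _ ≤ _ := by
          apply mul_le_mul_of_nonneg_left _ hδ.le
          exact mul_le_mul g1 h3 (by positivity) (by linarith)
  · intro L k hk
    obtain ⟨K, hK⟩ : ∃ K : Finset (ℕ × Fin k), K = (Icc 1 r) ×ˢ univ := ⟨_, rfl⟩
    have hKc : K.card = r * k := by
      rw [hK, card_product, card_univ, Fintype.card_fin, Nat.card_Icc, Nat.add_sub_cancel]
    have hKpos : 0 < K.card := by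
      rw [hKc]
      exact Nat.mul_pos (by omega) (by omega)
    have hKr : (0 : ℝ) < K.card := by exact_mod_cast hKpos
    obtain ⟨D, d₀, H1⟩ := dense r hr β hβ L (1 / (K.card : ℝ)) (by positivity)
    obtain ⟨δ, hδ, d₁, H2⟩ := core r hr β hβ
    refine ⟨D, max d₀ d₁, fun d hd a ha1 had hcop col => ?_⟩
    obtain ⟨H, -, -, g3, -⟩ := H2 d ((le_max_right _ _).trans hd) a ha1 had hcop
    have hJm : ∀ j ∈ J r β d a, ((j * d + a : ℕ) : ℝ) ≤ (d : ℝ) ^ β ∧ (j * d + a).primeFactorsList.length ≤ r ∧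
        ∀ q : ℕ, q.Prime → q ∣ j * d + a → (d : ℝ) ^ ((β - 1) / 6) ≤ q := by
      intro j hj
      unfold J at hj
      rw [mem_filter] at hj
      exact hj.2
    obtain ⟨c, hcK, hc⟩ := pigeon (J r β d a) K
      (fun j => ((j * d + a).primeFactorsList.length, col (j * d + a))) (by
        intro j hj
        obtain ⟨_, h2, _⟩ := hJm j hj
        have h1 := (g3 j hj).2
        rw [hK, mem_product, mem_Icc]
        refine ⟨⟨?_, h2⟩, mem_univ _⟩
        by_contra hcon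
        have h4 : (j * d + a).primeFactorsList = [] := List.length_eq_zero_iff.1 (by
          simp only at hcon
          omega)
        rw [Nat.primeFactorsList_eq_nil] at h4
        omega) (card_pos.1 hKpos)
    obtain ⟨j, e, he1, he2, he3⟩ := H1 d ((le_max_left _ _).trans hd) a ha1 had hcop
      ((J r β d a).filter (fun j => ((j * d + a).primeFactorsList.length, col (j * d + a)) = c)) (filter_subset _ _) hc
    rw [hK, mem_product, mem_Icc] at hcK
    refine ⟨c.1, hcK.1.1, hcK.1.2, c.2, j * d + a, e, ?_, he1, he2, ?_⟩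
    · unfold Nat.ModEq
      rw [Nat.mul_add_mod_self_right]
    · intro i hi
      have h5 := he3 i hi
      rw [mem_filter] at h5
      obtain ⟨g5, g6, g7⟩ := hJm _ h5.1
      have e0 : (j + i * e) * d + a = j * d + a + i * (e * d) := by ring
      have h6 := h5.2
      rw [e0] at g5 g7 h6
      refine ⟨g5, ?_, ?_, g7⟩
      · rw [← h6]
      · rw [← h6]

end Pool.Agent.Results.MP_42948a_nt.NarrowProgressions
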