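import Pool.Agent.Q117.AP.All

/-!
# MP_42948a_nt: patterns of almost primes at the beginning of every residue class to every modulus
-/

set_option autoImplicit false

namespace Pool.Agent.Results.MP_42948a_nt.PatternsInEveryClass

open Finset
open Pool.Agent.Q117.LF (Ro)

/-- for every prime `p` not dividing `d` there is a translate of `E` without multiples of `p` -/
def Admissible (d : ℕ) (E : Finset ℤ) : Prop := ∀ p : ℕ, p.Prime → ¬ p ∣ d → ∃ r : ℤ, ∀ e ∈ E, ¬ (p : ℤ) ∣ r + e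

/-- the number of the residue classes modulo `p` met by `E` -/
noncomputable def omega (E : Finset ℤ) (p : ℕ) : ℕ := (E.image (fun e : ℤ => e % (p : ℤ))).card

/-- the product of `1 - omega / p` over the primes `p ≤ y` that do not divide `d` -/
noncomputable def dens (y d : ℕ) (E : Finset ℤ) : ℝ := ∏ p ∈ (Icc 1 y).filter (fun p : ℕ => p.Prime ∧ ¬ p ∣ d), (1 - (omega E p : ℝ) / p)

open Classical in
/-- the `1 ≤ n ≤ N` with `a + d (n + e₀)` a product of at most `R` primes, all `≥ x`, all the `a + d (n + e)`, `e ∈ E`, without prime factors `≤ z`, and such that for the integers `s ∉ E` at distance `≤ L` from an element of `E` the number `a + d (n + s)` has a prime factor `≤ z` -/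
noncomputable def Terms (d a : ℕ) (E : Finset ℤ) (e₀ : ℤ) (R : ℕ) (x z L : ℝ) (N : ℕ) : Finset ℕ :=
  (Icc 1 N).filter (fun n : ℕ => ((a : ℤ) + d * (n + e₀)).natAbs.primeFactorsList.length ≤ R ∧ (∀ p : ℕ, p.Prime → (p : ℤ) ∣ (a : ℤ) + d * (n + e₀) → x ≤ p) ∧
    (∀ e ∈ E, Ro z ((a : ℤ) + d * (n + e))) ∧ ∀ e ∈ E, ∀ s : ℤ, |((s - e : ℤ) : ℝ)| ≤ L → s ∉ E → ¬ Ro z ((a : ℤ) + d * (n + s)))

theorem result : ∀ (k R : ℕ) (β : ℝ), 1 ≤ R → 0 < β → 25 * (1 + β) < 3 * (8 * R - 1) * β → ∃ t : ℕ, 1 ≤ t ∧ ∃ c : ℝ, 0 < c ∧ ∃ ν : ℝ, 0 < ν ∧ ∃ d0 : ℕ, ∀ d : ℕ, d0 ≤ d →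
    ∀ a : ℕ, 1 ≤ a → a ≤ d → a.Coprime d → ∀ E : Finset ℤ, E.card ≤ k → (∀ e ∈ E, |(e : ℝ)| ≤ (d : ℝ) ^ β) → Admissible d E → ∀ e₀ ∈ E,
      c * ((d : ℝ) ^ β * dens ⌊(d : ℝ) ^ (1 + β)⌋₊ d E) ≤
        ((Terms d a E e₀ R ((d : ℝ) ^ (β / 7)) ((d : ℝ) ^ (1 / (t : ℝ))) (ν * ((Nat.totient d : ℝ) / d * Real.log d)) ⌊(d : ℝ) ^ β⌋₊).card : ℝ) :=
  Pool.Agent.Q117.AP.patC

end Pool.Agent.Results.MP_42948a_nt.PatternsInEveryClass
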