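import Pool.Agent.Q145.UM.Law

set_option autoImplicit false
set_option maxHeartbeats 4000000

/-!
# One system of multipliers for all reduced classes to almost all moduli

Chowla's conjecture asks for a prime among `a, a + d, a + 2 d, ..., a + d^ε d`, for every reduced
class `a` modulo `d`.  Here the multipliers `0, 1, 2, ...` are replaced by random integers
`s_1, s_2, ...` from `[1, Y]`, which are the same for all the moduli `d` in `(D/2, D]`.  The exact
number of the multipliers which are needed is `2 log D log (DY)`, and before that time the number of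
the pairs (modulus, class) which are not yet served is `D^(2 - x + o(1))`, `x = K/(log D log (DY))`.
-/

namespace Pool.Agent.Results.MP_42948a_nt.UniversalMultipliers

open Finset

open scoped Classical

/-- The pairs `(d, a)` with `D/2 < d ≤ D`, `d ∉ B`, `1 ≤ a ≤ d` and `a` prime to `d`. -/
noncomputable def Pairs (D : ℕ) (B : Finset ℕ) : Finset (ℕ × ℕ) :=
  (Icc 1 D ×ˢ Icc 1 D).filter (fun x => D < 2 * x.1 ∧ x.1 ∉ B ∧ x.2 ≤ x.1 ∧ x.2.Coprime x.1)

/-- The pairs whose modulus is a prime. -/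
noncomputable def PrimePairs (D : ℕ) (B : Finset ℕ) : Finset (ℕ × ℕ) :=
  (Pairs D B).filter (fun x => x.1.Prime)

/-- The pairs `(d, a)` in `V` such that none of the numbers `a + s_i d` is a prime. -/
noncomputable def Missed (V : Finset (ℕ × ℕ)) {K : ℕ} (s : Fin K → ℕ) : Finset (ℕ × ℕ) :=
  V.filter (fun x => ∀ i, ¬ (x.2 + s i * x.1).Prime)

/-- `log D log (DY)`. -/
noncomputable def unit (D Y : ℕ) : ℝ := Real.log D * Real.log (D * Y : ℝ)

/-- With `x = K / (log D log (DY))`: if `x ≤ 2 - ε` then at least `D^(2 - x - ε)` pairs with a prime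
modulus and at most `D^(2 - x + ε)` pairs with any modulus are missed; if `x ≥ 2 + ε` no pair is
missed. -/
def Law (ε : ℝ) (D Y : ℕ) (B : Finset ℕ) (K : ℕ) (s : Fin K → ℕ) : Prop :=
  ((K : ℝ) / unit D Y ≤ 2 - ε →
    (D : ℝ) ^ (2 - (K : ℝ) / unit D Y - ε) ≤ (Missed (PrimePairs D B) s).card ∧
    ((Missed (Pairs D B) s).card : ℝ) ≤ (D : ℝ) ^ (2 - (K : ℝ) / unit D Y + ε)) ∧
  (2 + ε ≤ (K : ℝ) / unit D Y → Missed (Pairs D B) s = ∅)

/-- The least `t` such that `a + s_t d` is a prime (`K + 1` if there is none), `x = (d, a)`. -/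
noncomputable def wait {K : ℕ} (s : Fin K → ℕ) (x : ℕ × ℕ) : ℕ :=
  sInf {t : ℕ | K < t ∨ ∃ i : Fin K, (i : ℕ) + 1 = t ∧ (x.2 + s i * x.1).Prime}

/-- The largest waiting time over the pairs in `V`. -/
noncomputable def maxWait (V : Finset (ℕ × ℕ)) {K : ℕ} (s : Fin K → ℕ) : ℕ := V.sup (wait s)

/-- All sequences of length `K` of integers from `[1, Y]`. -/
def Seqs (Y K : ℕ) : Finset (Fin K → ℕ) := Fintype.piFinset (fun _ : Fin K => Icc 1 Y)

theorem missed_card (V : Finset (ℕ × ℕ)) {K : ℕ} (s : Fin K → ℕ) :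
    (Missed V s).card = Pool.Agent.Q145.RA.surv Pool.Agent.Q145.UM.RR V s := by
  unfold Missed Pool.Agent.Q145.RA.surv
  exact Pool.Agent.Q145.RA.card_filter_inst _ _ _ _

theorem fx_law (ε' ε : ℝ) (h : ε' ≤ ε) (D Y : ℕ) (hD : 1 ≤ D) (B : Finset ℕ) (K : ℕ) (s : Fin K → ℕ)
    (hs : Pool.Agent.Q145.UM.Fx ε' D Y B K s) : Law ε D Y B K s := by
  have hD1 : (1 : ℝ) ≤ D := by exact_mod_cast hD
  obtain ⟨h1, h2⟩ := hs
  have e1 : Pool.Agent.Q145.UM.unit D Y = unit D Y := rfl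
  have e2 : Pool.Agent.Q145.UM.PP D B = Pairs D B := rfl
  have e3 : Pool.Agent.Q145.UM.QQ D B = PrimePairs D B := rfl
  rw [e1, e2, e3] at h1
  rw [e1, e2] at h2
  refine ⟨fun h3 => ?_, fun h3 => ?_⟩
  · obtain ⟨h4, h5⟩ := h1 (by linarith)
    rw [missed_card, missed_card]
    exact ⟨le_trans (Real.rpow_le_rpow_of_exponent_le hD1 (by linarith)) h4,
      h5.trans (Real.rpow_le_rpow_of_exponent_le hD1 (by linarith))⟩
  · have h6 := h2 (by linarith)
    rw [← missed_card] at h6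
    exact card_eq_zero.1 h6

/-- **One system of multipliers for all reduced classes to almost all moduli in `(D/2, D]`.**
Let `ε > 0` and `A` be given, let `D` be large and `Y ≥ D^(1 + ε)`.  There is a set `B` of at most
`D / (log D)^A` moduli such that:

(i) for every `K`, all but at most `ε Y^K` of the sequences `s ∈ {1, ..., Y}^K` have the following
property, with `x = K / (log D log (DY))`: if `x ≤ 2 - ε`, then the number of the pairs `(d, a)`,
`d` a modulus in `(D/2, D]` outside `B` and `a` a reduced class modulo `d`, such that none of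
`a + s_1 d, ..., a + s_K d` is a prime is at most `D^(2 - x + ε)`, and at least `D^(2 - x - ε)`, even
if only prime moduli `d` are counted; if `x ≥ 2 + ε`, there is no such pair;

(ii) for every `K ≥ (2 + ε) log D log (DY)`, for all but at most `ε Y^K` of the sequences
`s ∈ {1, ..., Y}^K` the least `t` such that each reduced class to each modulus in `(D/2, D]` outside
`B` contains a prime among `a + s_1 d, ..., a + s_t d` lies between `(2 - ε) log D log (DY)` and
`(2 + ε) log D log (DY)`; the lower bound holds already for the prime moduli. -/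
theorem result : ∀ ε : ℝ, 0 < ε → ∀ A : ℕ, ∃ D₀ : ℕ, ∀ D Y : ℕ, D₀ ≤ D → (D : ℝ) ^ (1 + ε) ≤ Y →
    ∃ B ⊆ Icc 1 D, (B.card : ℝ) ≤ D / Real.log D ^ A ∧
    (∀ K : ℕ, (((Seqs Y K).filter (fun s => ¬ Law ε D Y B K s)).card : ℝ) ≤ ε * (Y : ℝ) ^ K) ∧
    (∀ K : ℕ, (2 + ε) * unit D Y ≤ K →
      (((Seqs Y K).filter (fun s => ¬ ((2 - ε) * unit D Y ≤ maxWait (PrimePairs D B) s ∧
        (maxWait (Pairs D B) s : ℝ) ≤ (2 + ε) * unit D Y))).card : ℝ) ≤ ε * (Y : ℝ) ^ K) := by
  intro ε hε A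
  set ε₁ : ℝ := min ε 1 with hε₁
  have hε₁0 : 0 < ε₁ := lt_min hε one_pos
  have hε₁1 : ε₁ ≤ 1 := min_le_right _ _
  have hε₁ε : ε₁ ≤ ε := min_le_left _ _
  have hl : Filter.Tendsto (fun Y : ℕ => Real.log Y) Filter.atTop Filter.atTop :=
    Real.tendsto_log_atTop.comp tendsto_natCast_atTop_atTop
  obtain ⟨D₁, h1⟩ := Pool.Agent.Q145.UM.fx A (ε₁ / 4) (by positivity) (by linarith)
  obtain ⟨D₂, h2⟩ := Filter.eventually_atTop.1 ((hl.eventually_ge_atTop (2 / ε₁)).and (hl.eventually_ge_atTop 1))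
  refine ⟨max D₁ (max D₂ 3), fun D Y hD hDY => ?_⟩
  have hD₁ : D₁ ≤ D := (le_max_left _ _).trans hD
  have hD₂ : D₂ ≤ D := ((le_max_left _ _).trans (le_max_right _ _)).trans hD
  have hD3 : 3 ≤ D := ((le_max_right _ _).trans (le_max_right _ _)).trans hD
  obtain ⟨g1, g2⟩ := h2 D hD₂
  have hDr : (3 : ℝ) ≤ D := by exact_mod_cast hD3
  have hD1 : (1 : ℝ) ≤ D := by linarith
  have hDY' : (D : ℝ) ^ (1 + ε₁ / 4) ≤ Y :=
    le_trans (Real.rpow_le_rpow_of_exponent_le (by linarith) (by linarith)) hDY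
  obtain ⟨B, hB1, hB2, hB3⟩ := h1 D Y hD₁ hDY'
  have hYK : ∀ K : ℕ, (0 : ℝ) ≤ (Y : ℝ) ^ K := fun K => by positivity
  have hY1 : (1 : ℝ) ≤ Y := by
    refine le_trans ?_ hDY
    exact Real.one_le_rpow hD1 (by linarith)
  have hW1 : Real.log D ≤ Real.log (D * Y : ℝ) := Real.log_le_log (by linarith) (by nlinarith)
  set P : ℝ := unit D Y with hPd
  have hP : 2 ≤ ε₁ * P := by
    have h5 : Real.log D ≤ P := by
      rw [hPd]
      unfold unit
      nlinarith
    rw [div_le_iff₀ hε₁0] at g1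
    nlinarith
  have hP0 : 0 < P := by
    by_contra h
    push Not at h
    nlinarith
  refine ⟨B, hB1, hB2, fun K => ?_, fun K hK => ?_⟩
  · have h5 : ((Seqs Y K).filter (fun s => ¬ Law ε D Y B K s)) ⊆
        ((Pool.Agent.Q145.RA.seqs (Icc 1 Y) K).filter (fun s => ¬ Pool.Agent.Q145.UM.Fx (ε₁ / 4) D Y B K s)) := by
      intro s hs
      obtain ⟨h6, h7⟩ := mem_filter.1 hs
      exact mem_filter.2 ⟨h6, fun h8 => h7 (fx_law (ε₁ / 4) ε (by linarith) D Y (by omega) B K s h8)⟩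
    have h6 : (((Seqs Y K).filter (fun s => ¬ Law ε D Y B K s)).card : ℝ) ≤
        (((Pool.Agent.Q145.RA.seqs (Icc 1 Y) K).filter
          (fun s => ¬ Pool.Agent.Q145.UM.Fx (ε₁ / 4) D Y B K s)).card : ℝ) := by exact_mod_cast card_le_card h5
    exact (h6.trans (hB3 K)).trans (mul_le_mul_of_nonneg_right (by linarith) (hYK K))
  · set k₁ : ℕ := ⌊(2 - ε₁ / 2) * P⌋₊ with hk₁
    set k₂ : ℕ := ⌈(2 + ε₁ / 2) * P⌉₊ with hk₂
    have a1 : (k₁ : ℝ) ≤ (2 - ε₁ / 2) * P := Nat.floor_le (mul_nonneg (by linarith) hP0.le)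
    have a2 : (2 - ε₁ / 2) * P < k₁ + 1 := Nat.lt_floor_add_one _
    have a3 : (2 + ε₁ / 2) * P ≤ k₂ := Nat.le_ceil _
    have a4 : (k₂ : ℝ) < (2 + ε₁ / 2) * P + 1 := Nat.ceil_lt_add_one (by positivity)
    have a5 : (k₂ : ℝ) ≤ (2 + ε₁) * P := by nlinarith
    have a6 : (2 + ε₁) * P ≤ (2 + ε) * P := mul_le_mul_of_nonneg_right (by linarith) hP0.le
    have hk₂K : k₂ ≤ K := by
      have : (k₂ : ℝ) ≤ K := by linarith
      exact_mod_cast this
    have hk₁K : k₁ ≤ K := by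
      have : (k₁ : ℝ) ≤ K := by nlinarith
      exact_mod_cast this
    have hsub : (Seqs Y K).filter (fun s => ¬ ((2 - ε) * P ≤ maxWait (PrimePairs D B) s ∧
        (maxWait (Pairs D B) s : ℝ) ≤ (2 + ε) * P)) ⊆
        (Pool.Agent.Q145.RA.seqs (Icc 1 Y) K).filter
          (fun s => ¬ Pool.Agent.Q145.UM.Fx (ε₁ / 4) D Y B k₁ (fun i => s (Fin.castLE hk₁K i))) ∪
        (Pool.Agent.Q145.RA.seqs (Icc 1 Y) K).filter
          (fun s => ¬ Pool.Agent.Q145.UM.Fx (ε₁ / 4) D Y B k₂ (fun i => s (Fin.castLE hk₂K i))) := by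
      intro s hs
      obtain ⟨h6, h7⟩ := mem_filter.1 hs
      by_contra h8
      rw [mem_union, not_or, mem_filter, mem_filter] at h8
      obtain ⟨h9, h10⟩ := h8
      have h11 : Pool.Agent.Q145.UM.Fx (ε₁ / 4) D Y B k₁ (fun i => s (Fin.castLE hk₁K i)) := by
        by_contra h
        exact h9 ⟨h6, h⟩
      have h12 : Pool.Agent.Q145.UM.Fx (ε₁ / 4) D Y B k₂ (fun i => s (Fin.castLE hk₂K i)) := by
        by_contra h
        exact h10 ⟨h6, h⟩
      apply h7
      constructor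
      · have b1 : (k₁ : ℝ) / P ≤ 2 - ε₁ / 2 := by
          rw [div_le_iff₀ hP0]
          exact a1
        have b2 := (h11.1 (by
          show (k₁ : ℝ) / P ≤ 2 - ε₁ / 4
          linarith)).1
        have b3 : (1 : ℝ) ≤ (D : ℝ) ^ (2 - (k₁ : ℝ) / P - ε₁ / 4) := Real.one_le_rpow hD1 (by linarith)
        have b4 : 0 < Pool.Agent.Q145.RA.surv Pool.Agent.Q145.UM.RR (Pool.Agent.Q145.UM.QQ D B)
            (fun i => s (Fin.castLE hk₁K i)) := by
          have : (1 : ℝ) ≤ Pool.Agent.Q145.RA.surv Pool.Agent.Q145.UM.RR (Pool.Agent.Q145.UM.QQ D B)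
            (fun i => s (Fin.castLE hk₁K i)) := b3.trans b2
          have b5 : 1 ≤ Pool.Agent.Q145.RA.surv Pool.Agent.Q145.UM.RR (Pool.Agent.Q145.UM.QQ D B)
            (fun i => s (Fin.castLE hk₁K i)) := by exact_mod_cast this
          omega
        unfold Pool.Agent.Q145.RA.surv at b4
        obtain ⟨x, hx⟩ := card_pos.1 b4
        obtain ⟨hx1, hx2⟩ := mem_filter.1 hx
        have b6 : k₁ + 1 ≤ wait s x := by
          apply le_csInf ⟨K + 1, Or.inl (by omega)⟩
          rintro t (ht | ⟨i, hi, hp⟩)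
          · omega
          · by_contra h
            exact hx2 ⟨i, by omega⟩ hp
        have b7 : wait s x ≤ maxWait (PrimePairs D B) s := le_sup (f := wait s) hx1
        have b8 : ((k₁ + 1 : ℕ) : ℝ) ≤ maxWait (PrimePairs D B) s := by exact_mod_cast b6.trans b7
        push_cast at b8
        nlinarith
      · have b1 : 2 + ε₁ / 2 ≤ (k₂ : ℝ) / P := by
          rw [le_div_iff₀ hP0]
          exact a3
        have b2 := h12.2 (by
          show 2 + ε₁ / 4 ≤ (k₂ : ℝ) / P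
          linarith)
        have b5 : maxWait (Pairs D B) s ≤ k₂ := by
          apply Finset.sup_le
          intro x hx
          unfold Pool.Agent.Q145.RA.surv at b2
          have b6 := card_eq_zero.1 b2
          have b7 : ¬ ∀ i : Fin k₂, ¬ Pool.Agent.Q145.UM.RR x (s (Fin.castLE hk₂K i)) := by
            intro h
            have : x ∈ (∅ : Finset (ℕ × ℕ)) := by
              rw [← b6]
              exact mem_filter.2 ⟨hx, h⟩
            exact notMem_empty x this
          push Not at b7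
          obtain ⟨i, hp⟩ := b7
          refine (Nat.sInf_le (Or.inr ⟨Fin.castLE hk₂K i, rfl, hp⟩)).trans ?_
          have := i.isLt
          simp only [Fin.val_castLE]
          omega
        have b6 : (maxWait (Pairs D B) s : ℝ) ≤ k₂ := by exact_mod_cast b5
        linarith
    have hone : ∀ (k : ℕ) (hk : k ≤ K), (((Pool.Agent.Q145.RA.seqs (Icc 1 Y) K).filter
          (fun s => ¬ Pool.Agent.Q145.UM.Fx (ε₁ / 4) D Y B k (fun i => s (Fin.castLE hk i)))).card : ℝ) ≤
          ε₁ / 4 * (Y : ℝ) ^ K := by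
      intro k hk
      have h5 := Pool.Agent.Q145.RA.card_restrict (Icc 1 Y) hk (fun s => ¬ Pool.Agent.Q145.UM.Fx (ε₁ / 4) D Y B k s)
      have h6 : (((Pool.Agent.Q145.RA.seqs (Icc 1 Y) K).filter
          (fun s => ¬ Pool.Agent.Q145.UM.Fx (ε₁ / 4) D Y B k (fun i => s (Fin.castLE hk i)))).card : ℝ) ≤
          (((Pool.Agent.Q145.RA.seqs (Icc 1 Y) k).filter
          (fun s => ¬ Pool.Agent.Q145.UM.Fx (ε₁ / 4) D Y B k s)).card : ℝ) * (Y : ℝ) ^ (K - k) := by
        refine (le_of_eq (congrArg Nat.cast (Pool.Agent.Q145.RA.card_filter_inst _ _ _ _))).trans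
          ((Nat.cast_le.2 h5).trans (le_of_eq ?_))
        rw [Nat.cast_mul, Nat.cast_pow, Nat.card_Icc, Nat.add_sub_cancel]
        exact congrArg (fun t : ℕ => (t : ℝ) * (Y : ℝ) ^ (K - k)) (Pool.Agent.Q145.RA.card_filter_inst _ _ _ _)
      refine h6.trans ?_
      calc (((Pool.Agent.Q145.RA.seqs (Icc 1 Y) k).filter
          (fun s => ¬ Pool.Agent.Q145.UM.Fx (ε₁ / 4) D Y B k s)).card : ℝ) * (Y : ℝ) ^ (K - k)
          ≤ ε₁ / 4 * (Y : ℝ) ^ k * (Y : ℝ) ^ (K - k) :=
            mul_le_mul_of_nonneg_right (hB3 k) (by positivity)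
        _ = ε₁ / 4 * (Y : ℝ) ^ K := by rw [mul_assoc, ← pow_add, Nat.add_sub_cancel' hk]
    have h8 : (((Seqs Y K).filter (fun s => ¬ ((2 - ε) * P ≤ maxWait (PrimePairs D B) s ∧
        (maxWait (Pairs D B) s : ℝ) ≤ (2 + ε) * P))).card : ℝ) ≤
        (((Pool.Agent.Q145.RA.seqs (Icc 1 Y) K).filter
          (fun s => ¬ Pool.Agent.Q145.UM.Fx (ε₁ / 4) D Y B k₁ (fun i => s (Fin.castLE hk₁K i)))).card : ℝ) +
        (((Pool.Agent.Q145.RA.seqs (Icc 1 Y) K).filter
          (fun s => ¬ Pool.Agent.Q145.UM.Fx (ε₁ / 4) D Y B k₂ (fun i => s (Fin.castLE hk₂K i)))).card : ℝ) := by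
      exact_mod_cast (card_le_card hsub).trans (card_union_le _ _)
    have h9 := hone k₁ hk₁K
    have h10 := hone k₂ hk₂K
    have h11 : ε₁ / 4 * (Y : ℝ) ^ K + ε₁ / 4 * (Y : ℝ) ^ K ≤ ε * (Y : ℝ) ^ K := by
      have := hYK K
      nlinarith
    linarith

end Pool.Agent.Results.MP_42948a_nt.UniversalMultipliers
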